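import Pool.Agent.Work.MP_65e34f.Basic

/-!
# MP_65e34f_al : block TRM (helper39)
-/

set_option autoImplicit false

namespace Pool.FG.helper39

open Pool.FG Matrix

/-- eigenvalue of an element with `x^m = ±1` -/
theorem eigen {K F : Type} [Field K] [Field F] [IsAlgClosed F] [Algebra K F] (m : ℕ) (x : SL K)
    (hx : Sc (x ^ m)) : ∃ z : F, z ^ (2 * m) = 1 ∧ algebraMap K F (tr x) = z + z⁻¹ := by
  set f := algebraMap K F with hf
  obtain ⟨z, hz⟩ : ∃ z : F, z ^ 2 - f (tr x) * z + 1 = 0 := by
    set p : Polynomial F := Polynomial.X ^ 2 - Polynomial.C (f (tr x)) * Polynomial.X + 1 with hp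
    have hdeg : p.degree = 2 := by
      rw [hp]
      compute_degree!
    obtain ⟨z, hz⟩ := IsAlgClosed.exists_root p (by rw [hdeg]; norm_num)
    refine ⟨z, ?_⟩
    have := hz
    rw [Polynomial.IsRoot, hp] at this
    simpa using this
  have hz0 : z ≠ 0 := by
    rintro rfl
    norm_num at hz
  set M : Matrix (Fin 2) (Fin 2) F := (x : M2 K).map f with hM
  have hd := det_eq x
  have hd' : f (x.1 0 0) * f (x.1 1 1) - f (x.1 0 1) * f (x.1 1 0) = 1 := by
    rw [← map_mul, ← map_mul, ← map_sub, hd, map_one]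
  have hdet : (M - z • (1 : Matrix (Fin 2) (Fin 2) F)).det = 0 := by
    rw [Matrix.det_fin_two]
    simp only [hM, Matrix.sub_apply, Matrix.map_apply, Matrix.smul_apply, Matrix.one_apply_eq,
      smul_eq_mul, mul_one]
    rw [Matrix.one_apply_ne (by decide : (0 : Fin 2) ≠ 1),
      Matrix.one_apply_ne (by decide : (1 : Fin 2) ≠ 0)]
    have h1 : f (tr x) = f (x.1 0 0) + f (x.1 1 1) := by rw [tr, map_add]
    rw [h1] at hz
    linear_combination hz + hd'
  obtain ⟨v, hv0, hv⟩ := (Matrix.exists_mulVec_eq_zero_iff).2 hdet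
  have hv1 : M.mulVec v = z • v := by
    rw [Matrix.sub_mulVec, Matrix.smul_mulVec, Matrix.one_mulVec, sub_eq_zero] at hv
    exact hv
  have hvn : ∀ n : ℕ, (M ^ n).mulVec v = z ^ n • v := by
    intro n
    induction n with
    | zero => simp
    | succ n ih => rw [pow_succ, ← Matrix.mulVec_mulVec, hv1, Matrix.mulVec_smul, ih, smul_smul,
        pow_succ, mul_comm]
  have hMm : M ^ m = ((x ^ m : SL K) : M2 K).map f := by
    rw [Matrix.SpecialLinearGroup.coe_pow, hM]
    exact (map_pow (f.mapMatrix) (x : M2 K) m).symm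
  have hzm : z ^ m = 1 ∨ z ^ m = -1 := by
    have h1 := hvn m
    rw [hMm] at h1
    obtain ⟨i, hi⟩ : ∃ i, v i ≠ 0 := by
      by_contra hcon
      push Not at hcon
      exact hv0 (funext hcon)
    rcases hx with hx | hx
    · left
      rw [hx, Matrix.SpecialLinearGroup.coe_one, Matrix.map_one f (map_zero f) (map_one f),
        Matrix.one_mulVec] at h1
      have h2 := congrFun h1 i
      rw [Pi.smul_apply, smul_eq_mul] at h2
      have h3 : (z ^ m - 1) * v i = 0 := by linear_combination -h2
      rcases mul_eq_zero.1 h3 with h4 | h4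
      · linear_combination h4
      · exact absurd h4 hi
    · right
      have h5 : (((-1 : SL K) : SL K) : M2 K).map f = -1 := by
        rw [Matrix.SpecialLinearGroup.coe_neg, Matrix.SpecialLinearGroup.coe_one]
        ext a b
        fin_cases a <;> fin_cases b <;> simp
      rw [hx, h5, Matrix.neg_mulVec, Matrix.one_mulVec] at h1
      have h2 := congrFun h1 i
      rw [Pi.smul_apply, smul_eq_mul, Pi.neg_apply] at h2
      have h3 : (z ^ m + 1) * v i = 0 := by linear_combination -h2
      rcases mul_eq_zero.1 h3 with h4 | h4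
      · linear_combination h4
      · exact absurd h4 hi
  refine ⟨z, ?_, ?_⟩
  · rw [mul_comm, pow_mul]
    rcases hzm with h | h <;> rw [h] <;> norm_num
  · field_simp
    linear_combination -hz

/-- TRM -/
theorem stmt_TRM : Stmt_TRM := by
  intro K _ _ m hm
  classical
  set F := AlgebraicClosure K with hF
  set S : Finset F := (Polynomial.nthRoots (2 * m) (1 : F)).toFinset with hS
  have hS1 : S.card ≤ 2 * m := (Multiset.toFinset_card_le _).trans (Polynomial.card_nthRoots _ _)
  have hsub : (algebraMap K F) '' {τ : K | ∃ x : SL K, Sc (x ^ m) ∧ tr x = τ} ⊆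
      (fun z : F => z + z⁻¹) '' (S : Set F) := by
    rintro _ ⟨τ, ⟨x, hx, rfl⟩, rfl⟩
    obtain ⟨z, hz1, hz2⟩ := eigen (F := F) m x hx
    refine ⟨z, ?_, hz2.symm⟩
    rw [hS, Finset.mem_coe, Multiset.mem_toFinset, Polynomial.mem_nthRoots (by omega)]
    exact hz1
  calc Set.ncard {τ : K | ∃ x : SL K, Sc (x ^ m) ∧ tr x = τ}
      = ((algebraMap K F) '' {τ : K | ∃ x : SL K, Sc (x ^ m) ∧ tr x = τ}).ncard :=
        (Set.ncard_image_of_injective _ (algebraMap K F).injective).symm
    _ ≤ ((fun z : F => z + z⁻¹) '' (S : Set F)).ncard :=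
        Set.ncard_le_ncard hsub ((Finset.finite_toSet S).image _)
    _ ≤ (S : Set F).ncard := Set.ncard_image_le (Finset.finite_toSet S)
    _ = S.card := Set.ncard_coe_finset S
    _ ≤ 2 * m := hS1

end Pool.FG.helper39
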