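import Pool.Agent.Work.MP_65e34f_helper39.UPZ

/-!
# MP_65e34f_al : block UPF (helper39)
-/

set_option autoImplicit false

namespace Pool.FG.helper39

open Pool.FG Matrix

section
variable {K : Type} [Field K]

/-- number of lists with product `±z` -/
lemma cz_card (hT : Stmt_TRM) (ds : List ℕ) (hl : ds ≠ []) (h1 : ∀ m ∈ ds, 1 ≤ m) :
    ∃ C : ℕ, ∀ (K : Type) [Field K] [Finite K] (H : Subgroup (SL K)) (Q : ℕ),
      RO H Q → ∀ z : SL K, (cz ds H z).ncard ≤ C * Q ^ (2 * (ds.length - 1)) := by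
  induction ds with
  | nil => exact absurd rfl hl
  | cons m ds ih =>
    by_cases hl' : ds = []
    · subst hl'
      refine ⟨2, ?_⟩
      intro K _ _ H Q _ z
      have := cz_one m H z
      simpa using this
    · obtain ⟨C, hC⟩ := ih hl' (fun m' hm' => h1 m' (List.mem_cons_of_mem _ hm'))
      refine ⟨200 * m * C, ?_⟩
      intro K _ _ H Q hR z
      have h2 := cz_cons_le m ds H z (Am m H) (fun x _ hx _ => hx)
        (C * Q ^ (2 * (ds.length - 1))) (fun x _ => hC K H Q hR _)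
      have h3 := Am_ncard hT m (h1 m List.mem_cons_self) H Q hR
      have hpos : 0 < ds.length := List.length_pos_iff.2 hl'
      have h4 : 2 * ((m :: ds).length - 1) = 2 + 2 * (ds.length - 1) := by
        rw [List.length_cons]; omega
      rw [h4, pow_add]
      calc (cz (m :: ds) H z).ncard ≤ (Am m H).ncard * (C * Q ^ (2 * (ds.length - 1))) := h2
        _ ≤ (200 * m * Q ^ 2) * (C * Q ^ (2 * (ds.length - 1))) := Nat.mul_le_mul_right _ h3
        _ = 200 * m * C * (Q ^ 2 * Q ^ (2 * (ds.length - 1))) := by ring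

/-- number of all lists -/
lemma Xs_card (hT : Stmt_TRM) (ds : List ℕ) (h1 : ∀ m ∈ ds, 1 ≤ m) :
    ∃ C : ℕ, ∀ (K : Type) [Field K] [Finite K] (H : Subgroup (SL K)) (Q : ℕ),
      RO H Q → (Xs ds H).ncard ≤ C * Q ^ (2 * ds.length) := by
  induction ds with
  | nil =>
    refine ⟨1, ?_⟩
    intro K _ _ H Q _
    rw [Xs_nil, Set.ncard_singleton]
    simp
  | cons m ds ih =>
    obtain ⟨C, hC⟩ := ih (fun m' hm' => h1 m' (List.mem_cons_of_mem _ hm'))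
    refine ⟨200 * m * C, ?_⟩
    intro K _ _ H Q hR
    have h2 := ncard_prod_le (Set.toFinite (Am m H)) (fun _ => Xs ds H)
      (fun x _ => Xs_finite ds H) _ (fun x _ => hC K H Q hR)
    have hfin : {w : SL K × List (SL K) | w.1 ∈ Am m H ∧ w.2 ∈ Xs ds H}.Finite := by
      apply ((Set.toFinite (Am m H)).prod (Xs_finite ds H)).subset
      rintro ⟨x, ys⟩ ⟨h2, h3⟩
      exact ⟨h2, h3⟩
    have h3 : (Xs (m :: ds) H).ncard ≤
        Set.ncard {w : SL K × List (SL K) | w.1 ∈ Am m H ∧ w.2 ∈ Xs ds H} := by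
      refine le_trans (Set.ncard_le_ncard ?_ (hfin.image (fun w => w.1 :: w.2)))
        (Set.ncard_image_le hfin)
      intro xs hxs
      obtain ⟨x, ys, rfl, hx, hxm, hys⟩ := mem_Xs_cons.mp hxs
      exact ⟨(x, ys), ⟨⟨hx, hxm⟩, hys⟩, rfl⟩
    have h4 := Am_ncard hT m (h1 m List.mem_cons_self) H Q hR
    have h5 : 2 * (m :: ds).length = 2 + 2 * ds.length := by
      rw [List.length_cons]; omega
    rw [h5, pow_add]
    calc (Xs (m :: ds) H).ncard ≤ (Am m H).ncard * (C * Q ^ (2 * ds.length)) := h3.trans h2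
      _ ≤ (200 * m * Q ^ 2) * (C * Q ^ (2 * ds.length)) := Nat.mul_le_mul_right _ h4
      _ = 200 * m * C * (Q ^ 2 * Q ^ (2 * ds.length)) := by ring

/-- number of pairs -/
lemma pair_le {n : ℕ} [Finite K] (X : Set (List (SL K))) (hX : X.Finite)
    (R : SL K → Set (Fin n → SL K)) (B1 B2 : ℕ)
    (h1 : ∀ xs ∈ X, ¬ Sc xs.prod → (R xs.prod).ncard ≤ B1)
    (h2 : ∀ xs ∈ X, Sc xs.prod → (R xs.prod).ncard ≤ B2) :
    Set.ncard {t : List (SL K) × (Fin n → SL K) | t.1 ∈ X ∧ t.2 ∈ R t.1.prod} ≤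
      X.ncard * B1 + Set.ncard {xs | xs ∈ X ∧ Sc xs.prod} * B2 := by
  have hX1 : {xs | xs ∈ X ∧ ¬ Sc xs.prod}.Finite := hX.subset fun _ h => h.1
  have hX2 : {xs | xs ∈ X ∧ Sc xs.prod}.Finite := hX.subset fun _ h => h.1
  have e1 := ncard_prod_le hX1 (fun xs => R xs.prod) (fun _ _ => Set.toFinite _) B1
    (fun xs hxs => h1 xs hxs.1 hxs.2)
  have e2 := ncard_prod_le hX2 (fun xs => R xs.prod) (fun _ _ => Set.toFinite _) B2
    (fun xs hxs => h2 xs hxs.1 hxs.2)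
  have hsub : {t : List (SL K) × (Fin n → SL K) | t.1 ∈ X ∧ t.2 ∈ R t.1.prod} ⊆
      {w | w.1 ∈ {xs | xs ∈ X ∧ ¬ Sc xs.prod} ∧ w.2 ∈ R w.1.prod} ∪
      {w | w.1 ∈ {xs | xs ∈ X ∧ Sc xs.prod} ∧ w.2 ∈ R w.1.prod} := by
    rintro ⟨xs, w⟩ ⟨h3, h4⟩
    by_cases h5 : Sc xs.prod
    · exact Or.inr ⟨⟨h3, h5⟩, h4⟩
    · exact Or.inl ⟨⟨h3, h5⟩, h4⟩
  have hfin : ∀ Y : Set (List (SL K)), Y.Finite →
      {w : List (SL K) × (Fin n → SL K) | w.1 ∈ Y ∧ w.2 ∈ R w.1.prod}.Finite := by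
    intro Y hY
    apply (hY.prod (Set.finite_univ : (Set.univ : Set (Fin n → SL K)).Finite)).subset
    rintro ⟨xs, w⟩ ⟨h3, h4⟩
    exact ⟨h3, trivial⟩
  have h6 := Set.ncard_le_ncard hsub ((hfin _ hX1).union (hfin _ hX2))
  refine h6.trans ((Set.ncard_union_le _ _).trans (Nat.add_le_add (e1.trans ?_) e2))
  exact Nat.mul_le_mul_right _ (Set.ncard_le_ncard (fun _ h => h.1) hX)

lemma cz_one_eq (ds : List ℕ) (H : Subgroup (SL K)) :
    {xs | xs ∈ Xs ds H ∧ Sc xs.prod} = cz ds H 1 := by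
  ext xs
  simp [cz]

/-- square roots up to a sign and a non-scalar factor -/
lemma sq_ns [Finite K] (hS : Stmt_SQR) (y : SL K) (hy : ¬ Sc y) :
    Set.ncard {a : SL K | Sc (y * a ^ 2)} ≤ 4 := by
  have h1 : {a : SL K | Sc (y * a ^ 2)} ⊆ {a | a ^ 2 = y⁻¹} ∪ {a | a ^ 2 = -y⁻¹} := by
    rintro a (h | h)
    · left
      exact eq_inv_of_mul_eq_one_right h
    · right
      have : y⁻¹ * (y * a ^ 2) = y⁻¹ * (-1) := by rw [h]
      rw [inv_mul_cancel_left] at this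
      simpa using this
  have h2 := (hS K).1 y⁻¹ (by rwa [Sc_inv_iff])
  have h3 := (hS K).1 (-y⁻¹) (by rwa [Sc_neg_iff, Sc_inv_iff])
  have h4 := (Set.ncard_le_ncard h1 (Set.toFinite _)).trans (Set.ncard_union_le _ _)
  omega

lemma sq_sc [Finite K] (hS : Stmt_SQR) (H : Subgroup (SL K)) (Q : ℕ) (hQ : 1 ≤ Q) (hR : RO H Q)
    (y : SL K) (hy : Sc y) : Set.ncard {a : SL K | a ∈ H ∧ Sc (y * a ^ 2)} ≤ 102 * Q ^ 2 := by
  have h1 : {a : SL K | a ∈ H ∧ Sc (y * a ^ 2)} ⊆ {a | Sc a} ∪ {a | a ∈ H ∧ tr a = 0} := by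
    rintro a ⟨haH, ha⟩
    have h2 : Sc (a ^ 2) := by
      have h3 := (hy.inv).mul ha
      rwa [inv_mul_cancel_left] at h3
    rcases (hS K).2.1 a h2 with h3 | h3
    · exact Or.inl h3
    · exact Or.inr ⟨haH, h3⟩
  have h2 := hR.2.1 0
  have h3 : Set.ncard {x : SL K | Sc x} ≤ 2 := ncard_Sc_le
  have h4 := (Set.ncard_le_ncard h1 (Set.toFinite _)).trans (Set.ncard_union_le _ _)
  have h5 : 1 ≤ Q ^ 2 := Nat.one_le_pow _ _ hQ
  omega

/-- `a² b²` -/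
lemma sq2_le [Finite K] (hS : Stmt_SQR) (H : Subgroup (SL K)) (Q : ℕ) (hQ : 1 ≤ Q) (hR : RO H Q)
    (y : SL K) (A : ℕ) (hA : Set.ncard {a : SL K | a ∈ H ∧ Sc (y * a ^ 2)} ≤ A) :
    Set.ncard {p : SL K × SL K | p.1 ∈ H ∧ p.2 ∈ H ∧ Sc (y * (p.1 ^ 2 * p.2 ^ 2))} ≤
      400 * Q ^ 3 + A * (102 * Q ^ 2) := by
  set T : SL K → Set (SL K) := fun a => {b | b ∈ H ∧ Sc (y * a ^ 2 * b ^ 2)} with hT
  have e1 := ncard_prod_le (Set.toFinite {a : SL K | a ∈ H ∧ ¬ Sc (y * a ^ 2)}) T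
    (fun _ _ => Set.toFinite _) 4 (fun a ha =>
      (Set.ncard_le_ncard (fun b hb => hb.2) (Set.toFinite _)).trans (sq_ns hS _ ha.2))
  have e2 := ncard_prod_le (Set.toFinite {a : SL K | a ∈ H ∧ Sc (y * a ^ 2)}) T
    (fun _ _ => Set.toFinite _) (102 * Q ^ 2) (fun a ha => sq_sc hS H Q hQ hR _ ha.2)
  have hsub : {p : SL K × SL K | p.1 ∈ H ∧ p.2 ∈ H ∧ Sc (y * (p.1 ^ 2 * p.2 ^ 2))} ⊆
      {w | w.1 ∈ {a : SL K | a ∈ H ∧ ¬ Sc (y * a ^ 2)} ∧ w.2 ∈ T w.1} ∪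
      {w | w.1 ∈ {a : SL K | a ∈ H ∧ Sc (y * a ^ 2)} ∧ w.2 ∈ T w.1} := by
    rintro ⟨a, b⟩ ⟨h1, h2, h3⟩
    simp only at h1 h2 h3
    rw [← mul_assoc] at h3
    by_cases h5 : Sc (y * a ^ 2)
    · exact Or.inr ⟨⟨h1, h5⟩, h2, h3⟩
    · exact Or.inl ⟨⟨h1, h5⟩, h2, h3⟩
  have h6 := (Set.ncard_le_ncard hsub (Set.toFinite _)).trans (Set.ncard_union_le _ _)
  have h7 : Set.ncard {a : SL K | a ∈ H ∧ ¬ Sc (y * a ^ 2)} ≤ 100 * Q ^ 3 := by
    refine le_trans (Set.ncard_le_ncard (t := (H : Set (SL K))) (fun a ha => ha.1)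
      (Set.toFinite _)) ?_
    have := hR.1
    rwa [← SetLike.coe_sort_coe, Nat.card_coe_set_eq] at this
  have h8 := Nat.mul_le_mul_right 4 h7
  have h9 := Nat.mul_le_mul_right (102 * Q ^ 2) hA
  omega

/-- commutators, non-scalar -/
lemma cm_ns [Finite K] (H : Subgroup (SL K)) (Q : ℕ) (hR : RO H Q) (z : SL K) (hz : z ∈ H)
    (hz1 : ¬ Sc z) :
    Set.ncard {p : SL K × SL K | p.1 ∈ H ∧ p.2 ∈ H ∧ cm p.1 p.2 = z} ≤ 10000 * Q ^ 3 := by
  have e1 := ncard_prod_le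
    (Set.toFinite {a : SL K | a ∈ H ∧ tr (a⁻¹ * z) = tr a ∧ ¬ Sc a})
    (fun a => {b : SL K | b ∈ H ∧ b * a⁻¹ = (a⁻¹ * z) * b})
    (fun _ _ => Set.toFinite _) (100 * Q) (fun a ha => hR.2.2.2.1 a⁻¹ (H.inv_mem ha.1)
      (by rw [Sc_inv_iff]; exact ha.2.2) (a⁻¹ * z) (H.mul_mem (H.inv_mem ha.1) hz))
  have hsub : {p : SL K × SL K | p.1 ∈ H ∧ p.2 ∈ H ∧ cm p.1 p.2 = z} ⊆
      {w | w.1 ∈ {a : SL K | a ∈ H ∧ tr (a⁻¹ * z) = tr a ∧ ¬ Sc a} ∧
        w.2 ∈ {b : SL K | b ∈ H ∧ b * w.1⁻¹ = (w.1⁻¹ * z) * b}} := by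
    rintro ⟨a, b⟩ ⟨h1, h2, h3⟩
    simp only at h1 h2 h3
    have h4 : a⁻¹ * z = b * a⁻¹ * b⁻¹ := by
      rw [← h3, cm]; group
    refine ⟨⟨h1, ?_, ?_⟩, h2, ?_⟩
    · rw [h4, tr_conj, tr_inv]
    · intro hsc
      apply hz1
      rw [← h3, cm]
      have : a * b * a⁻¹ * b⁻¹ = 1 := by
        rw [hsc.comm b]; group
      rw [this]
      exact Sc_one
    · simp only
      rw [h4]; group
  have h6 := (Set.ncard_le_ncard hsub (Set.toFinite _)).trans e1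
  have h7 : Set.ncard {a : SL K | a ∈ H ∧ tr (a⁻¹ * z) = tr a ∧ ¬ Sc a} ≤ 100 * Q ^ 2 :=
    (Set.ncard_le_ncard (t := {a : SL K | a ∈ H ∧ tr (a⁻¹ * z) = tr a})
      (fun a ha => ⟨ha.1, ha.2.1⟩) (Set.toFinite _)).trans (hR.2.2.2.2 z hz hz1)
  calc _ ≤ _ := h6
    _ ≤ (100 * Q ^ 2) * (100 * Q) := Nat.mul_le_mul_right _ h7
    _ = 10000 * Q ^ 3 := by ring

/-- commutators, any -/
lemma cm_any [Finite K] (H : Subgroup (SL K)) (Q : ℕ) (hQ : 1 ≤ Q) (hR : RO H Q) (z : SL K)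
    (hz : z ∈ H) :
    Set.ncard {p : SL K × SL K | p.1 ∈ H ∧ p.2 ∈ H ∧ cm p.1 p.2 = z} ≤ 10200 * Q ^ 4 := by
  have hH : (H : Set (SL K)).ncard ≤ 100 * Q ^ 3 := by
    have := hR.1
    rwa [← SetLike.coe_sort_coe, Nat.card_coe_set_eq] at this
  have e1 := ncard_prod_le
    (Set.toFinite {a : SL K | a ∈ H ∧ ¬ Sc a})
    (fun a => {b : SL K | b ∈ H ∧ b * a⁻¹ = (a⁻¹ * z) * b})
    (fun _ _ => Set.toFinite _) (100 * Q) (fun a ha => hR.2.2.2.1 a⁻¹ (H.inv_mem ha.1)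
      (by rw [Sc_inv_iff]; exact ha.2) (a⁻¹ * z) (H.mul_mem (H.inv_mem ha.1) hz))
  have e2 := ncard_prod_le (Set.toFinite {a : SL K | Sc a}) (fun _ => (H : Set (SL K)))
    (fun _ _ => Set.toFinite _) _ (fun a _ => hH)
  have hsub : {p : SL K × SL K | p.1 ∈ H ∧ p.2 ∈ H ∧ cm p.1 p.2 = z} ⊆
      {w | w.1 ∈ {a : SL K | a ∈ H ∧ ¬ Sc a} ∧
        w.2 ∈ {b : SL K | b ∈ H ∧ b * w.1⁻¹ = (w.1⁻¹ * z) * b}} ∪
      {w | w.1 ∈ {a : SL K | Sc a} ∧ w.2 ∈ (H : Set (SL K))} := by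
    rintro ⟨a, b⟩ ⟨h1, h2, h3⟩
    simp only at h1 h2 h3
    by_cases hsc : Sc a
    · exact Or.inr ⟨hsc, h2⟩
    · refine Or.inl ⟨⟨h1, hsc⟩, h2, ?_⟩
      simp only
      have h4 : a⁻¹ * z = b * a⁻¹ * b⁻¹ := by
        rw [← h3, cm]; group
      rw [h4]; group
  have h6 := (Set.ncard_le_ncard hsub (Set.toFinite _)).trans (Set.ncard_union_le _ _)
  have h7 : Set.ncard {a : SL K | a ∈ H ∧ ¬ Sc a} ≤ 100 * Q ^ 3 :=
    (Set.ncard_le_ncard (t := (H : Set (SL K))) (fun a ha => ha.1) (Set.toFinite _)).trans hH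
  have h8 : Set.ncard {x : SL K | Sc x} ≤ 2 := ncard_Sc_le
  have hQ4 : Q ^ 3 ≤ Q ^ 4 := Nat.pow_le_pow_right hQ (by norm_num)
  calc _ ≤ _ := h6
    _ ≤ (100 * Q ^ 3) * (100 * Q) + 2 * (100 * Q ^ 3) :=
      Nat.add_le_add (e1.trans (Nat.mul_le_mul_right _ h7)) (e2.trans (Nat.mul_le_mul_right _ h8))
    _ ≤ (100 * Q ^ 3) * (100 * Q) + 2 * (100 * Q ^ 4) :=
      Nat.add_le_add_left (Nat.mul_le_mul_left _ (Nat.mul_le_mul_left _ hQ4)) _
    _ = 10200 * Q ^ 4 := by ring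

/-- commutators up to sign -/
lemma cm_sgn [Finite K] (H : Subgroup (SL K)) (y : SL K) (B : ℕ)
    (hB : ∀ z, (z = y⁻¹ ∨ z = -y⁻¹) →
      Set.ncard {p : SL K × SL K | p.1 ∈ H ∧ p.2 ∈ H ∧ cm p.1 p.2 = z} ≤ B) :
    Set.ncard {p : SL K × SL K | p.1 ∈ H ∧ p.2 ∈ H ∧ Sc (y * cm p.1 p.2)} ≤ 2 * B := by
  have hsub : {p : SL K × SL K | p.1 ∈ H ∧ p.2 ∈ H ∧ Sc (y * cm p.1 p.2)} ⊆
      {p : SL K × SL K | p.1 ∈ H ∧ p.2 ∈ H ∧ cm p.1 p.2 = y⁻¹} ∪
      {p : SL K × SL K | p.1 ∈ H ∧ p.2 ∈ H ∧ cm p.1 p.2 = -y⁻¹} := by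
    rintro ⟨a, b⟩ ⟨h1, h2, h | h⟩
    · exact Or.inl ⟨h1, h2, eq_inv_of_mul_eq_one_right h⟩
    · right
      refine ⟨h1, h2, ?_⟩
      have : y⁻¹ * (y * cm a b) = y⁻¹ * (-1) := by rw [h]
      rw [inv_mul_cancel_left] at this
      simpa using this
  have h6 := (Set.ncard_le_ncard hsub (Set.toFinite _)).trans (Set.ncard_union_le _ _)
  have h7 := hB y⁻¹ (Or.inl rfl)
  have h8 := hB (-y⁻¹) (Or.inr rfl)
  omega

/-- functions on `Fin 2` as pairs -/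
lemma fin2_le [Finite K] (P : SL K → SL K → Prop) (H : Subgroup (SL K)) :
    Set.ncard {w : Fin 2 → SL K | (∀ j, w j ∈ H) ∧ P (w 0) (w 1)} ≤
      Set.ncard {p : SL K × SL K | p.1 ∈ H ∧ p.2 ∈ H ∧ P p.1 p.2} := by
  refine Set.ncard_le_ncard_of_injOn (fun w => (w 0, w 1)) ?_ ?_ (Set.toFinite _)
  · rintro w ⟨h1, h2⟩
    exact ⟨h1 0, h1 1, h2⟩
  · intro w _ w' _ h
    rw [Prod.mk.injEq] at h
    funext j
    fin_cases j
    · exact h.1
    · exact h.2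

lemma fin1_le [Finite K] (P : SL K → Prop) (H : Subgroup (SL K)) :
    Set.ncard {w : Fin 1 → SL K | (∀ j, w j ∈ H) ∧ P (w 0)} ≤
      Set.ncard {a : SL K | a ∈ H ∧ P a} := by
  refine Set.ncard_le_ncard_of_injOn (fun w => w 0) ?_ ?_ (Set.toFinite _)
  · rintro w ⟨h1, h2⟩
    exact ⟨h1 0, h2⟩
  · intro w _ w' _ h
    funext j
    fin_cases j
    exact h

lemma finr_le [Finite K] (r : ℕ) (H : Subgroup (SL K)) :
    Set.ncard {w : Fin r → SL K | ∀ j, w j ∈ H} ≤ Nat.card H ^ r := by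
  have h1 : {w : Fin r → SL K | ∀ j, w j ∈ H} ⊆
      Set.range (fun (g : Fin r → H) (j : Fin r) => (g j : SL K)) := by
    intro w hw
    exact ⟨fun j => ⟨w j, hw j⟩, rfl⟩
  have h2 : (Set.range (fun (g : Fin r → H) (j : Fin r) => (g j : SL K))).ncard ≤
      Nat.card (Fin r → H) := by
    rw [← Set.image_univ, ← Set.ncard_univ]
    exact Set.ncard_image_le (Set.toFinite _)
  refine (Set.ncard_le_ncard h1 (Set.toFinite _)).trans (h2.trans (le_of_eq ?_))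
  rw [Nat.card_pi]
  simp

end

/-- UPF -/
theorem stmt_UPF (hT : Stmt_TRM) (hS : Stmt_SQR) : Stmt_UPF := by
  intro W ds hW hds h1
  obtain ⟨C1, hC1⟩ := Xs_card hT ds h1
  cases W with
  | zero => exact absurd rfl hW
  | free r =>
    refine ⟨C1 * 100 ^ r, ?_⟩
    intro K _ _ H Q hQ _ hR
    have h2 := ncard_prod_le (Xs_finite ds H)
      (fun _ => {w : Fin r → SL K | ∀ j, w j ∈ H}) (fun _ _ => Set.toFinite _) _
      (fun _ _ => finr_le r H)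
    have h3 : (Tup (.free r) ds H).ncard ≤ (Xs ds H).ncard * Nat.card H ^ r := by
      refine le_trans (le_of_eq ?_) h2
      congr 1
      ext t
      constructor
      · rintro ⟨h4, h5, -⟩
        exact ⟨h4, h5⟩
      · rintro ⟨h4, h5⟩
        exact ⟨h4, h5, trivial⟩
    have h4 := hC1 K H Q hR
    have h5 := Nat.pow_le_pow_left hR.1 r
    calc (Tup (.free r) ds H).ncard ≤ (Xs ds H).ncard * Nat.card H ^ r := h3
      _ ≤ (C1 * Q ^ (2 * ds.length)) * (100 * Q ^ 3) ^ r := Nat.mul_le_mul h4 h5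
      _ = C1 * 100 ^ r * Q ^ (2 * ds.length + 3 * r) := by
        rw [mul_pow, ← pow_mul, pow_add]; ring
  | comm =>
    have hne : ds ≠ [] := by
      rcases hds with h | ⟨r, h⟩
      · exact h
      · exact absurd h (by simp)
    obtain ⟨C2, hC2⟩ := cz_card hT ds hne h1
    refine ⟨C1 * 20000 + C2 * 20400, ?_⟩
    intro K _ _ H Q hQ hneg hR
    have h2 := pair_le (n := 2) (Xs ds H) (Xs_finite ds H)
      (fun y => {w : Fin 2 → SL K | (∀ j, w j ∈ H) ∧ Sc (y * cm (w 0) (w 1))})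
      (2 * (10000 * Q ^ 3)) (2 * (10200 * Q ^ 4))
      (by
        intro xs hxs hsc
        have hy := prod_mem_of_mem_Xs hxs
        refine (fin2_le (fun a b => Sc (xs.prod * cm a b)) H).trans (cm_sgn H _ _ ?_)
        rintro z (rfl | rfl)
        · exact cm_ns H Q hR _ (H.inv_mem hy) (by rwa [Sc_inv_iff])
        · refine cm_ns H Q hR _ ?_ (by rwa [Sc_neg_iff, Sc_inv_iff])
          have : -(xs.prod)⁻¹ = (-1) * (xs.prod)⁻¹ := by simp
          rw [this]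
          exact H.mul_mem hneg (H.inv_mem hy))
      (by
        intro xs hxs hsc
        have hy := prod_mem_of_mem_Xs hxs
        refine (fin2_le (fun a b => Sc (xs.prod * cm a b)) H).trans (cm_sgn H _ _ ?_)
        rintro z (rfl | rfl)
        · exact cm_any H Q hQ hR _ (H.inv_mem hy)
        · refine cm_any H Q hQ hR _ ?_
          have : -(xs.prod)⁻¹ = (-1) * (xs.prod)⁻¹ := by simp
          rw [this]
          exact H.mul_mem hneg (H.inv_mem hy))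
    rw [cz_one_eq] at h2
    have h3 : (Tup .comm ds H).ncard ≤
        (Xs ds H).ncard * (2 * (10000 * Q ^ 3)) + (cz ds H 1).ncard * (2 * (10200 * Q ^ 4)) := by
      refine le_trans (le_of_eq ?_) h2
      congr 1
    have h4 := hC1 K H Q hR
    have h5 := hC2 K H Q hR 1
    have hpos : 0 < ds.length := List.length_pos_iff.2 hne
    have e1 : 2 * ds.length + 3 = 2 * (ds.length - 1) + 4 + 1 := by omega
    have e2 : Q ^ (2 * (ds.length - 1) + 4) ≤ Q ^ (2 * ds.length + 3) :=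
      Nat.pow_le_pow_right hQ (by omega)
    calc (Tup .comm ds H).ncard ≤ _ := h3
      _ ≤ (C1 * Q ^ (2 * ds.length)) * (2 * (10000 * Q ^ 3)) +
          (C2 * Q ^ (2 * (ds.length - 1))) * (2 * (10200 * Q ^ 4)) :=
        Nat.add_le_add (Nat.mul_le_mul_right _ h4) (Nat.mul_le_mul_right _ h5)
      _ = C1 * 20000 * Q ^ (2 * ds.length + 3) + C2 * 20400 * Q ^ (2 * (ds.length - 1) + 4) := by
        rw [pow_add, pow_add]; ring
      _ ≤ C1 * 20000 * Q ^ (2 * ds.length + 3) + C2 * 20400 * Q ^ (2 * ds.length + 3) :=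
        Nat.add_le_add_left (Nat.mul_le_mul_left _ e2) _
      _ = (C1 * 20000 + C2 * 20400) * Q ^ (2 * ds.length + 3) := by ring
  | sq =>
    have hne : ds ≠ [] := by
      rcases hds with h | ⟨r, h⟩
      · exact h
      · exact absurd h (by simp)
    obtain ⟨C2, hC2⟩ := cz_card hT ds hne h1
    refine ⟨C1 * 4 + C2 * 102, ?_⟩
    intro K _ _ H Q hQ hneg hR
    have h2 := pair_le (n := 1) (Xs ds H) (Xs_finite ds H)
      (fun y => {w : Fin 1 → SL K | (∀ j, w j ∈ H) ∧ Sc (y * (w 0) ^ 2)})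
      4 (102 * Q ^ 2)
      (by
        intro xs hxs hsc
        refine (fin1_le (fun a => Sc (xs.prod * a ^ 2)) H).trans ?_
        exact (Set.ncard_le_ncard (fun a ha => ha.2) (Set.toFinite _)).trans (sq_ns hS _ hsc))
      (by
        intro xs hxs hsc
        refine (fin1_le (fun a => Sc (xs.prod * a ^ 2)) H).trans ?_
        exact sq_sc hS H Q hQ hR _ hsc)
    rw [cz_one_eq] at h2
    have h3 : (Tup .sq ds H).ncard ≤
        (Xs ds H).ncard * 4 + (cz ds H 1).ncard * (102 * Q ^ 2) := by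
      refine le_trans (le_of_eq ?_) h2
      congr 1
    have h4 := hC1 K H Q hR
    have h5 := hC2 K H Q hR 1
    have hpos : 0 < ds.length := List.length_pos_iff.2 hne
    have e1 : 2 * ds.length = 2 * (ds.length - 1) + 2 := by omega
    calc (Tup .sq ds H).ncard ≤ _ := h3
      _ ≤ (C1 * Q ^ (2 * ds.length)) * 4 + (C2 * Q ^ (2 * (ds.length - 1))) * (102 * Q ^ 2) :=
        Nat.add_le_add (Nat.mul_le_mul_right _ h4) (Nat.mul_le_mul_right _ h5)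
      _ = C1 * 4 * Q ^ (2 * ds.length) + C2 * 102 * Q ^ (2 * (ds.length - 1) + 2) := by
        rw [pow_add]; ring
      _ = (C1 * 4 + C2 * 102) * Q ^ (2 * ds.length) := by rw [← e1]; ring
  | sq2 =>
    have hne : ds ≠ [] := by
      rcases hds with h | ⟨r, h⟩
      · exact h
      · exact absurd h (by simp)
    obtain ⟨C2, hC2⟩ := cz_card hT ds hne h1
    refine ⟨C1 * 808 + C2 * 10804, ?_⟩
    intro K _ _ H Q hQ hneg hR
    have hQ23 : Q ^ 2 ≤ Q ^ 3 := Nat.pow_le_pow_right hQ (by norm_num)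
    have hQ34 : Q ^ 3 ≤ Q ^ 4 := Nat.pow_le_pow_right hQ (by norm_num)
    have h2 := pair_le (n := 2) (Xs ds H) (Xs_finite ds H)
      (fun y => {w : Fin 2 → SL K | (∀ j, w j ∈ H) ∧ Sc (y * ((w 0) ^ 2 * (w 1) ^ 2))})
      (808 * Q ^ 3) (10804 * Q ^ 4)
      (by
        intro xs hxs hsc
        refine (fin2_le (fun a b => Sc (xs.prod * (a ^ 2 * b ^ 2))) H).trans ?_
        refine (sq2_le hS H Q hQ hR xs.prod 4
          ((Set.ncard_le_ncard (fun a ha => ha.2) (Set.toFinite _)).trans (sq_ns hS _ hsc))).trans ?_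
        omega)
      (by
        intro xs hxs hsc
        refine (fin2_le (fun a b => Sc (xs.prod * (a ^ 2 * b ^ 2))) H).trans ?_
        refine (sq2_le hS H Q hQ hR xs.prod (102 * Q ^ 2) (sq_sc hS H Q hQ hR _ hsc)).trans ?_
        have : 102 * Q ^ 2 * (102 * Q ^ 2) = 10404 * Q ^ 4 := by ring
        omega)
    rw [cz_one_eq] at h2
    have h3 : (Tup .sq2 ds H).ncard ≤
        (Xs ds H).ncard * (808 * Q ^ 3) + (cz ds H 1).ncard * (10804 * Q ^ 4) := by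
      refine le_trans (le_of_eq ?_) h2
      congr 1
    have h4 := hC1 K H Q hR
    have h5 := hC2 K H Q hR 1
    have hpos : 0 < ds.length := List.length_pos_iff.2 hne
    have e2 : Q ^ (2 * (ds.length - 1) + 4) ≤ Q ^ (2 * ds.length + 3) :=
      Nat.pow_le_pow_right hQ (by omega)
    calc (Tup .sq2 ds H).ncard ≤ _ := h3
      _ ≤ (C1 * Q ^ (2 * ds.length)) * (808 * Q ^ 3) +
          (C2 * Q ^ (2 * (ds.length - 1))) * (10804 * Q ^ 4) :=
        Nat.add_le_add (Nat.mul_le_mul_right _ h4) (Nat.mul_le_mul_right _ h5)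
      _ = C1 * 808 * Q ^ (2 * ds.length + 3) + C2 * 10804 * Q ^ (2 * (ds.length - 1) + 4) := by
        rw [pow_add, pow_add]; ring
      _ ≤ C1 * 808 * Q ^ (2 * ds.length + 3) + C2 * 10804 * Q ^ (2 * ds.length + 3) :=
        Nat.add_le_add_left (Nat.mul_le_mul_left _ e2) _
      _ = (C1 * 808 + C2 * 10804) * Q ^ (2 * ds.length + 3) := by ring

end Pool.FG.helper39
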