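import Pool.Agent.Work.MP_65e34f.Basic

/-!
# MP_65e34f_al : block UPZ (helper39)
-/

set_option autoImplicit false

namespace Pool.FG.helper39

open Pool.FG Matrix

section
variable {K : Type} [Field K]

/-- elements of `H` with `x^m = ±1` -/
def Am (m : ℕ) (H : Subgroup (SL K)) : Set (SL K) := {x | x ∈ H ∧ Sc (x ^ m)}

/-- lists with product `±z` -/
def cz (ds : List ℕ) (H : Subgroup (SL K)) (z : SL K) : Set (List (SL K)) :=
  {xs | xs ∈ Xs ds H ∧ Sc (z⁻¹ * xs.prod)}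

/-- traces of elements with `x^m = ±1` -/
def Tm (K : Type) [Field K] (m : ℕ) : Set K := {τ | ∃ x : SL K, Sc (x ^ m) ∧ tr x = τ}

lemma cz_finite [Finite K] (ds : List ℕ) (H : Subgroup (SL K)) (z : SL K) : (cz ds H z).Finite :=
  (Xs_finite ds H).subset fun _ h => h.1

lemma Am_ncard [Finite K] (hT : Stmt_TRM) (m : ℕ) (hm : 1 ≤ m) (H : Subgroup (SL K)) (Q : ℕ)
    (hR : RO H Q) : (Am m H).ncard ≤ 200 * m * Q ^ 2 := by
  have h1 := hT K m hm
  have h2 : (Am m H).ncard ≤ (Tm K m).ncard * (100 * Q ^ 2) := by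
    apply ncard_le_mul_of_fiber (Set.toFinite _) (Set.toFinite _) tr
    · intro x hx
      exact ⟨x, hx.2, rfl⟩
    · intro τ _
      refine le_trans (Set.ncard_le_ncard ?_ (Set.toFinite _)) (hR.2.1 τ)
      rintro x ⟨hx, hxt⟩
      exact ⟨hx.1, hxt⟩
  refine h2.trans ?_
  calc (Tm K m).ncard * (100 * Q ^ 2) ≤ (2 * m) * (100 * Q ^ 2) := Nat.mul_le_mul_right _ h1
    _ = 200 * m * Q ^ 2 := by ring

/-- lists with product `±z` and first element in `S` -/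
lemma cz_cons_sub (m : ℕ) (ds : List ℕ) (H : Subgroup (SL K)) (z : SL K) (xs : List (SL K))
    (h : xs ∈ cz (m :: ds) H z) :
    ∃ x ys, xs = x :: ys ∧ x ∈ Am m H ∧ ys ∈ cz ds H (x⁻¹ * z) := by
  obtain ⟨h1, h2⟩ := h
  obtain ⟨x, ys, rfl, hx, hxm, hys⟩ := mem_Xs_cons.mp h1
  refine ⟨x, ys, rfl, ⟨hx, hxm⟩, hys, ?_⟩
  rw [List.prod_cons] at h2
  have e : (x⁻¹ * z)⁻¹ * ys.prod = z⁻¹ * (x * ys.prod) := by group
  rw [e]
  exact h2

lemma cz_cons_le [Finite K] (m : ℕ) (ds : List ℕ) (H : Subgroup (SL K)) (z : SL K)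
    (S : Set (SL K)) (hS : ∀ x ys, x ∈ Am m H → ys ∈ cz ds H (x⁻¹ * z) → x ∈ S) (B : ℕ)
    (hB : ∀ x ∈ S, (cz ds H (x⁻¹ * z)).ncard ≤ B) :
    (cz (m :: ds) H z).ncard ≤ S.ncard * B := by
  have h1 := ncard_prod_le (Set.toFinite S) (fun x => cz ds H (x⁻¹ * z))
    (fun x _ => cz_finite ds H _) B hB
  have hfin : {w : SL K × List (SL K) | w.1 ∈ S ∧ w.2 ∈ cz ds H (w.1⁻¹ * z)}.Finite := by
    apply ((Set.toFinite S).prod (Xs_finite ds H)).subset
    rintro ⟨x, ys⟩ ⟨h2, h3⟩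
    exact ⟨h2, h3.1⟩
  refine le_trans ?_ h1
  refine le_trans (Set.ncard_le_ncard ?_ (hfin.image (fun w => w.1 :: w.2)))
    (Set.ncard_image_le hfin)
  intro xs hxs
  obtain ⟨x, ys, rfl, hx, hys⟩ := cz_cons_sub m ds H z xs hxs
  exact ⟨(x, ys), ⟨hS x ys hx hys, hys⟩, rfl⟩

lemma cz_one [Finite K] (m : ℕ) (H : Subgroup (SL K)) (z : SL K) : (cz [m] H z).ncard ≤ 2 := by
  have h1 : cz [m] H z ⊆ {[z], [-z]} := by
    intro xs hxs
    obtain ⟨x, ys, rfl, hx, hys⟩ := cz_cons_sub m [] H z xs hxs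
    obtain ⟨h2, h3⟩ := hys
    rw [Xs_nil, Set.mem_singleton_iff] at h2
    subst h2
    rw [List.prod_nil, mul_one] at h3
    rw [Sc_inv_iff] at h3
    rcases h3 with h3 | h3
    · left
      have : x = z := by
        have := congrArg (fun y => x * y) h3
        simpa using this.symm
      rw [this]
    · right
      have : x = -z := by
        have h4 : z = -x := by
          have := congrArg (fun y => x * y) h3
          simpa using this
        rw [h4]; simp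
      rw [this]
      rfl
  exact (Set.ncard_le_ncard h1 (Set.toFinite _)).trans
    (Set.ncard_insert_le _ _ |>.trans (by simp))

lemma cz_two [Finite K] (hT : Stmt_TRM) (m m' : ℕ) (hm : 1 ≤ m) (H : Subgroup (SL K)) (Q : ℕ)
    (hR : RO H Q) (z : SL K) : (cz [m, m'] H z).ncard ≤ 400 * m * Q ^ 2 := by
  have h1 := cz_cons_le m [m'] H z (Am m H) (fun x _ hx _ => hx) 2 (fun x _ => cz_one m' H _)
  have h2 := Am_ncard hT m hm H Q hR
  calc (cz [m, m'] H z).ncard ≤ (Am m H).ncard * 2 := h1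
    _ ≤ (200 * m * Q ^ 2) * 2 := Nat.mul_le_mul_right _ h2
    _ = 400 * m * Q ^ 2 := by ring

lemma cz_two' [Finite K] (hT : Stmt_TRM) (m m' : ℕ) (hm : 1 ≤ m) (hm' : 1 ≤ m')
    (H : Subgroup (SL K)) (Q : ℕ) (hR : RO H Q) (z : SL K) (hz : z ∈ H) (hz1 : ¬ Sc z) :
    (cz [m, m'] H z).ncard ≤ 800 * m * m' * Q := by
  set S : Set (SL K) := {x | x ∈ H ∧ Sc (x ^ m) ∧ Sc ((z⁻¹ * x) ^ m')} with hS
  have h1 := cz_cons_le m [m'] H z S (by
    intro x ys hx hys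
    refine ⟨hx.1, hx.2, ?_⟩
    obtain ⟨h2, h3⟩ := hys
    obtain ⟨y, zs, rfl, hy, hym, hzs⟩ := mem_Xs_cons.mp h2
    rw [Xs_nil, Set.mem_singleton_iff] at hzs
    subst hzs
    have e : (x⁻¹ * z)⁻¹ * [y].prod = z⁻¹ * x * y := by
      rw [List.prod_singleton]; group
    rw [e] at h3
    have e2 : z⁻¹ * x = (z⁻¹ * x * y) * y⁻¹ := by group
    rw [e2, (Commute.mul_pow (h3.comm _) m')]
    refine Sc.mul (h3.pow m') ?_
    rw [inv_pow]
    exact hym.inv) 2 (fun x _ => cz_one m' H _)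
  have h2 : S.ncard ≤ ((Tm K m) ×ˢ (Tm K m')).ncard * (100 * Q) := by
    apply ncard_le_mul_of_fiber (Set.toFinite _) (Set.toFinite _) (fun x => (tr x, tr (z⁻¹ * x)))
    · intro x hx
      exact ⟨⟨x, hx.2.1, rfl⟩, ⟨z⁻¹ * x, hx.2.2, rfl⟩⟩
    · rintro ⟨τ, t⟩ _
      refine le_trans (Set.ncard_le_ncard ?_ (Set.toFinite _))
        (hR.2.2.1 z⁻¹ (H.inv_mem hz) (by rwa [Sc_inv_iff]) τ t)
      rintro x ⟨hx, hxt⟩
      rw [Prod.mk.injEq] at hxt
      exact ⟨hx.1, hxt.1, hxt.2⟩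
  rw [Set.ncard_prod] at h2
  have h3 := hT K m hm
  have h4 := hT K m' hm'
  calc (cz [m, m'] H z).ncard ≤ S.ncard * 2 := h1
    _ ≤ ((Tm K m).ncard * (Tm K m').ncard * (100 * Q)) * 2 := Nat.mul_le_mul_right _ h2
    _ ≤ ((2 * m) * (2 * m') * (100 * Q)) * 2 :=
      Nat.mul_le_mul_right _ (Nat.mul_le_mul_right _ (Nat.mul_le_mul h3 h4))
    _ = 800 * m * m' * Q := by ring

lemma cz_three [Finite K] (hT : Stmt_TRM) (m m' m'' : ℕ) (hm : 1 ≤ m) (hm' : 1 ≤ m')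
    (hm'' : 1 ≤ m'') (H : Subgroup (SL K)) (Q : ℕ) (hQ : 1 ≤ Q) (hR : RO H Q) (z : SL K)
    (hz : z ∈ H) :
    (cz [m, m', m''] H z).ncard ≤ (800 * m' + 160000 * m * m' * m'') * Q ^ 3 := by
  set W : Set (SL K × List (SL K)) := {w | w.1 ∈ Am m H ∧ w.2 ∈ cz [m', m''] H (w.1⁻¹ * z)}
  set S1 : Set (SL K) := {x | x ∈ Am m H ∧ Sc (x⁻¹ * z)} with hS1
  set S2 : Set (SL K) := {x | x ∈ Am m H ∧ ¬ Sc (x⁻¹ * z)} with hS2
  have hf : ∀ S : Set (SL K),
      {w : SL K × List (SL K) | w.1 ∈ S ∧ w.2 ∈ cz [m', m''] H (w.1⁻¹ * z)}.Finite := by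
    intro S
    apply ((Set.toFinite S).prod (Xs_finite [m', m''] H)).subset
    rintro ⟨x, ys⟩ ⟨h2, h3⟩
    exact ⟨h2, h3.1⟩
  have h1 := ncard_prod_le (Set.toFinite S1) (fun x => cz [m', m''] H (x⁻¹ * z))
    (fun x _ => cz_finite _ H _) _ (fun x _ => cz_two hT m' m'' hm' H Q hR _)
  have h2 := ncard_prod_le (Set.toFinite S2) (fun x => cz [m', m''] H (x⁻¹ * z))
    (fun x _ => cz_finite _ H _) _ (fun x hx => cz_two' hT m' m'' hm' hm'' H Q hR _
      (H.mul_mem (H.inv_mem hx.1.1) hz) hx.2)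
  have hS1c : S1.ncard ≤ 2 := by
    have h3 : S1 ⊆ {z, -z} := by
      rintro x ⟨-, h4 | h4⟩
      · left
        have := congrArg (fun y => x * y) h4
        simpa using this.symm
      · right
        have h5 : z = -x := by
          have := congrArg (fun y => x * y) h4
          simpa using this
        rw [Set.mem_singleton_iff, h5]; simp
    exact (Set.ncard_le_ncard h3 (Set.toFinite _)).trans
      (Set.ncard_insert_le _ _ |>.trans (by simp))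
  have hS2c : S2.ncard ≤ 200 * m * Q ^ 2 :=
    (Set.ncard_le_ncard (fun x hx => hx.1) (Set.toFinite _)).trans (Am_ncard hT m hm H Q hR)
  have h3 : (cz [m, m', m''] H z).ncard ≤
      Set.ncard {w : SL K × List (SL K) | w.1 ∈ S1 ∧ w.2 ∈ cz [m', m''] H (w.1⁻¹ * z)} +
      Set.ncard {w : SL K × List (SL K) | w.1 ∈ S2 ∧ w.2 ∈ cz [m', m''] H (w.1⁻¹ * z)} := by
    refine le_trans ?_ (Set.ncard_union_le _ _)
    have hfu := (hf S1).union (hf S2)
    refine le_trans (Set.ncard_le_ncard ?_ (hfu.image (fun w => w.1 :: w.2)))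
      (Set.ncard_image_le hfu)
    intro xs hxs
    obtain ⟨x, ys, rfl, hx, hys⟩ := cz_cons_sub m _ H z xs hxs
    by_cases h4 : Sc (x⁻¹ * z)
    · exact ⟨(x, ys), Or.inl ⟨⟨hx, h4⟩, hys⟩, rfl⟩
    · exact ⟨(x, ys), Or.inr ⟨⟨hx, h4⟩, hys⟩, rfl⟩
  have hQ3 : Q ^ 2 ≤ Q ^ 3 := Nat.pow_le_pow_right hQ (by norm_num)
  calc (cz [m, m', m''] H z).ncard ≤ S1.ncard * (400 * m' * Q ^ 2) +
        S2.ncard * (800 * m' * m'' * Q) := h3.trans (Nat.add_le_add h1 h2)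
    _ ≤ 2 * (400 * m' * Q ^ 2) + (200 * m * Q ^ 2) * (800 * m' * m'' * Q) :=
      Nat.add_le_add (Nat.mul_le_mul_right _ hS1c) (Nat.mul_le_mul_right _ hS2c)
    _ ≤ 2 * (400 * m' * Q ^ 3) + (200 * m * Q ^ 2) * (800 * m' * m'' * Q) :=
      Nat.add_le_add_right (Nat.mul_le_mul_left _ (Nat.mul_le_mul_left _ hQ3)) _
    _ = (800 * m' + 160000 * m * m' * m'') * Q ^ 3 := by ring

end

theorem main (hT : Stmt_TRM) (ds : List ℕ) (hl : 3 ≤ ds.length) (h1 : ∀ m ∈ ds, 1 ≤ m) :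
    ∃ C : ℕ, ∀ (K : Type) [Field K] [Finite K] (H : Subgroup (SL K)) (Q : ℕ),
      1 ≤ Q → RO H Q → ∀ z ∈ H, (cz ds H z).ncard ≤ C * Q ^ (2 * ds.length - 3) := by
  induction ds with
  | nil => simp at hl
  | cons m ds ih =>
    by_cases hl' : 3 ≤ ds.length
    · obtain ⟨C, hC⟩ := ih hl' (fun m' hm' => h1 m' (List.mem_cons_of_mem _ hm'))
      refine ⟨200 * m * C, ?_⟩
      intro K _ _ H Q hQ hR z hz
      have h2 := cz_cons_le m ds H z (Am m H) (fun x _ hx _ => hx)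
        (C * Q ^ (2 * ds.length - 3))
        (fun x hx => hC K H Q hQ hR _ (H.mul_mem (H.inv_mem hx.1) hz))
      have h3 := Am_ncard hT m (h1 m List.mem_cons_self) H Q hR
      have h4 : 2 * (m :: ds).length - 3 = 2 + (2 * ds.length - 3) := by
        rw [List.length_cons]; omega
      rw [h4, pow_add]
      calc (cz (m :: ds) H z).ncard ≤ (Am m H).ncard * (C * Q ^ (2 * ds.length - 3)) := h2
        _ ≤ (200 * m * Q ^ 2) * (C * Q ^ (2 * ds.length - 3)) := Nat.mul_le_mul_right _ h3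
        _ = 200 * m * C * (Q ^ 2 * Q ^ (2 * ds.length - 3)) := by ring
    · rw [List.length_cons] at hl
      have h2 : ds.length = 2 := by omega
      obtain ⟨m', m'', rfl⟩ := List.length_eq_two.1 h2
      refine ⟨800 * m' + 160000 * m * m' * m'', ?_⟩
      intro K _ _ H Q hQ hR z hz
      exact cz_three hT m m' m'' (h1 m (by simp)) (h1 m' (by simp)) (h1 m'' (by simp)) H Q hQ hR z hz

/-- UPZ -/
theorem stmt_UPZ (hT : Stmt_TRM) : Stmt_UPZ := by
  intro ds hl h1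
  obtain ⟨C, hC⟩ := main hT ds hl h1
  refine ⟨C, ?_⟩
  intro K _ _ H Q hQ _ hR
  refine le_trans ?_ (hC K H Q hQ hR 1 H.one_mem)
  refine Set.ncard_le_ncard_of_injOn Prod.fst ?_ ?_ (cz_finite ds H 1)
  · rintro ⟨xs, w⟩ ⟨h2, -, h3⟩
    refine ⟨h2, ?_⟩
    rw [inv_one, one_mul]
    exact h3
  · rintro ⟨xs, w⟩ _ ⟨xs', w'⟩ _ h
    have h' : xs = xs' := h
    subst h'
    have h2 : w = w' := by
      funext j
      exact Fin.elim0 j
    rw [h2]

end Pool.FG.helper39
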